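import Pool.Agent.Y102.V16

set_option autoImplicit false

/-!
# The torsor of periods of abelian varieties: weights, one class which decides, and rigid Lie algebras

Let `A` be an abelian variety over the field `ℚ̄` of algebraic numbers (`AbVar`), `M = h^1(A)`. The
de Rham-Betti classes in the tensor space `M ^ {⊗ r} (w)`, for a natural number `r` and an integer
`w`, are the pairs of an array `a` of algebraic numbers (the coefficients on the de Rham side, with
respect to the basis `A.dR` of `H^1_dR(A / ℚ̄)`) and of a multilinear form `φ` in `r` variables in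
`H_1(A, ℚ)` such that `(2 π i) ^ w φ` is the linear combination with the coefficients `a` of the
products of the periods (`Compat`). Since `M` has a polarization, the tensor spaces
`M ^ {⊗ n} ⊗ (M ^ ∨) ^ {⊗ m} (w)` are isomorphic to such ones.

A complex point of the variety of the isomorphisms from the de Rham to the Betti side is given by
the images `F i` of the elements `A.dR i` and by the image `t ≠ 0` of the generator of the de Rham
side of `ℚ(1)`. The comparison isomorphism is the point given by `F = A.dR` and `t = 2 π i`. The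
point `(F, t)` respects the class given by `a` and `φ` if `t ^ w φ` is the combination with the
coefficients `a` of the products of the `F i`. So `TorsorDRB` describes the complex points of the
torsor `Ω^dRB` of `M`. The torsor `TorsorHodge` is cut out by the classes which are Hodge classes and
de Rham-Betti classes. These are all Hodge classes, by the theorem of Deligne, and all of them are
motivated, by the theorem of André; so `TorsorHodge` describes the complex points of `Ω^And`.

Let `𝔤` be the Lie algebra of the endomorphisms of `H_1(A, ℚ)` that annihilate all classes which are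
Hodge classes and de Rham-Betti classes (`InLie`, the Lie algebra of the Hodge group), and let `𝔷` be
its centre (`Central`). We prove, for EVERY abelian variety `A` over `ℚ̄`:

1. The weights of the de Rham-Betti classes are zero: there are no nonzero ones in `M ^ {⊗ r} (w)` if
   `r ≠ 2 w`. So the torsor `Ω^dRB` is stable under the homotheties `(F, t) ↦ (c F, c ^ 2 t)`: the
   de Rham-Betti group contains the homotheties.
2. There is a de Rham-Betti class `Θ` in `M ^ {⊗ 4} (2)` such that `Ω^dRB = Ω^And` and all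
   de Rham-Betti classes in all the tensor spaces are Hodge classes (`TorsorsCoincide`) if and only if
   `Θ` is a Hodge class and `𝔷` annihilates all de Rham-Betti classes.
3. `TorsorsCoincide` holds if `𝔤` is of type `A_1` (`TypeA1`) and `𝔷` is rigid (`RigidCentre`, for
   example `𝔷 = 0`), or if `𝔤` is of spin type (`TypeSpin`).

So the first part of the period conjecture holds for the motives `h^1(A)` (and all objects of the
tensor category generated by them) for the `A` in 3, for example for

* the Kuga-Satake varieties of all K3 surfaces (hyperkähler varieties, cubic fourfolds) over `ℚ̄`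
  such that the field `F` of endomorphisms of the transcendental lattice `T` is totally real (for
  example `F = ℚ`, the general case) and the dimension `r` of `T` over `F` is not five: `𝔤 ⊗ ℂ` is a
  sum of copies of `so(r)`, acting by tensor products of spin representations. Since the motive
  `h^2` is in the category generated by that of the Kuga-Satake variety (André), `Ω^dRB = Ω^And` also
  holds for `h^2(X)` for all these K3 surfaces (hyperkähler varieties) `X`;
* the fourfolds of Mumford, the abelian fourfolds with a definite quaternion algebra, the fourfolds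
  of Weil type whose Hodge group is `SU(2, 2)`, all of which have exceptional Hodge classes;
* the abelian varieties whose simple factors have maximal real multiplication or totally indefinite
  quaternion multiplication (all `J_1(N)` without factors of CM type).

There is no assumption on periods, the proofs are based on the theorem of Schneider and Lang for the
theta functions of `A` (proved in this repository), for 1 on the transcendence of `π`, and on a
classification of the Lie subalgebras of `𝔤` which act semisimply on `H_1(A, ℚ)` with the same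
commutant as `𝔤`; for the spin type this is a new theorem (`SP.main_col`; for one copy: a Lie
subalgebra of `so(n)`, `n ≥ 6`, which generates the even Clifford algebra is `so(n)`).

In type `A_1` the algebra `𝔤 ⊗ ℂ` is the sum of its centre and of ideals `𝔰_i` isomorphic to `sl(2)`,
and `H_1(A, ℂ)` is a sum of tensor products of standard representations of some of the `𝔰_i`, on
which the centre acts by scalars; the homomorphism `f i` from the algebra of matrices of size two
to the endomorphisms of `H_1(A, ℂ)` extends the action of `𝔰_i`. Apart from this we assume that for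
all `i ≠ k` there is a constituent on which `𝔰_i` and `𝔰_k` act, or there are constituents which are
equal apart from the factors with index `i` and `k` (`Links`).
-/

open Module Matrix Pool.Agent.Y102 Pool.Agent.W516.DR Pool.Agent.H204R3.GP

noncomputable section

namespace Pool.Agent.Results.MP_f11a48_ag.AbelianTorsor

variable {g : ℕ} (A : AbVar g)

/-- The multilinear forms in `r` variables in `H_1(A, ℚ)`. -/
abbrev Form (r : ℕ) : Type := MultilinearMap ℚ (fun _ : Fin r => A.H1) ℚ

/-- The pair of `a` and `φ` is a de Rham-Betti class in `h^1(A) ^ {⊗ r} (w)`. -/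
def IsDRB {r : ℕ} (w : ℤ) (a : (Fin r → Fin g ⊕ Fin g) → QBar) (φ : Form A r) : Prop :=
  Compat A.dR (2 * Real.pi * Complex.I) w a φ

/-- `φ` is a Hodge class. -/
def IsHodge {r : ℕ} (φ : Form A r) : Prop := IsHodgeTensor (A.per : A.H1 →+ (Fin g → ℂ)) φ

/-- The Betti side of `h^1(A)`, tensored with the complex numbers: the linear maps to `ℂ`. -/
abbrev Co : Type := A.H1 →ₗ[ℚ] ℂ

/-- The point `(F, t)` of the variety of isomorphisms respects all de Rham-Betti classes. -/
def TorsorDRB (F : Fin g ⊕ Fin g → Co A) (t : ℂ) : Prop :=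
  ∀ (r : ℕ) (w : ℤ) (a : (Fin r → Fin g ⊕ Fin g) → QBar) (φ : Form A r),
    IsDRB A w a φ → Compat F t w a φ

/-- The point `(F, t)` respects the classes that are de Rham-Betti classes and Hodge classes. -/
def TorsorHodge (F : Fin g ⊕ Fin g → Co A) (t : ℂ) : Prop :=
  ∀ (r : ℕ) (w : ℤ) (a : (Fin r → Fin g ⊕ Fin g) → QBar) (φ : Form A r),
    IsDRB A w a φ → IsHodge A φ → Compat F t w a φ

/-- `Ω^dRB = Ω^And` for `M = h^1(A)`, and all de Rham-Betti classes are Hodge classes. -/
def TorsorsCoincide : Prop := (∀ F t, t ≠ 0 → (TorsorDRB A F t ↔ TorsorHodge A F t)) ∧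
  ∀ (r : ℕ) (w : ℤ) (a : (Fin r → Fin g ⊕ Fin g) → QBar) (φ : Form A r),
    IsDRB A w a φ → IsHodge A φ

/-- The endomorphism `X` annihilates the form `φ` (as a derivation). -/
def Annihilates {r : ℕ} (X : Module.End ℚ A.H1) (φ : Form A r) : Prop :=
  ∀ v, ∑ k, φ (Function.update v k (X (v k))) = 0

/-- `X` is in the Lie algebra `𝔤`: it annihilates all classes that are Hodge classes and
de Rham-Betti classes. -/
def InLie (X : Module.End ℚ A.H1) : Prop :=
  ∀ (r : ℕ) (w : ℤ) (a : (Fin r → Fin g ⊕ Fin g) → QBar) (φ : Form A r),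
    IsDRB A w a φ → IsHodge A φ → Annihilates A X φ

/-- The endomorphisms of the rational homology. -/
abbrev EndQ (A : AbVar g) : Type := Module.End ℚ A.H1

/-- The endomorphisms `X` and `Y` commute. -/
def Comm (X Y : EndQ A) : Prop := X * Y = Y * X

/-- `X` is in the centre `𝔷` of the Lie algebra `𝔤`. -/
def Central (X : EndQ A) : Prop := InLie A X ∧ ∀ Y, InLie A Y → Comm A X Y

/-- The centre of the Lie algebra annihilates all de Rham-Betti classes. -/
def CentreCondition : Prop := ∀ X, Central A X →
  ∀ (r : ℕ) (w : ℤ) (a : (Fin r → Fin g ⊕ Fin g) → QBar) (φ : Form A r),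
    IsDRB A w a φ → Annihilates A X φ

/-- The algebra of the endomorphisms of `H_1(A, ℂ)`, as matrices for the basis of the lattice. -/
abbrev EndC (_ : AbVar g) : Type := Matrix (Fin (2 * g)) (Fin (2 * g)) ℂ

/-- The matrix of the extension of an endomorphism of `H_1(A, ℚ)` to `H_1(A, ℂ)`. -/
def toC (X : Module.End ℚ A.H1) : EndC A := Matrix.of fun i j => (X (Pi.single j 1) i : ℂ)

/-- The complex Lie algebra `𝔤 ⊗ ℂ`, acting on `H_1(A, ℂ)`. -/
def lieC : Submodule ℂ (EndC A) := Submodule.span ℂ {Y | ∃ X, InLie A X ∧ Y = toC A X}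

/-- `Z` commutes with `𝔤 ⊗ ℂ`. -/
def Commutes (Z : EndC A) : Prop := ∀ Y ∈ lieC A, Z * Y = Y * Z

/-- The algebra of matrices of size two. -/
abbrev M2 : Type := Matrix (Fin 2) (Fin 2) ℂ

/-- The `f i` are commuting actions of the algebra of matrices of size two, not zero. -/
def Actions {n : ℕ} (f : Fin n → M2 →ₗ[ℂ] EndC A) : Prop :=
  (∀ i a b, f i (a * b) = f i a * f i b) ∧
    (∀ i k, i ≠ k → ∀ a b, f i a * f k b = f k b * f i a) ∧ ∀ i, f i 1 ≠ 0

/-- The Lie algebra `𝔤 ⊗ ℂ` is the sum of the images of `sl(2)` under the `f i` and of its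
centre. -/
def Generates {n : ℕ} (f : Fin n → M2 →ₗ[ℂ] EndC A) : Prop :=
  (∀ i x, x.trace = 0 → f i x ∈ lieC A) ∧
    ∀ X ∈ lieC A, ∃ x : Fin n → M2, (∀ i, (x i).trace = 0) ∧ Commutes A (X - ∑ i, f i (x i))

/-- The operator `N` maps some constituents on which `f k` acts to constituents on which `f i` acts,
and respects the other actions and the action of the centre. -/
def Links {n : ℕ} (f : Fin n → M2 →ₗ[ℂ] EndC A) (i k : Fin n) (N : EndC A) : Prop :=
  f i 1 * N = N ∧ N * f k 1 = N ∧ (∀ l, l ≠ i → l ≠ k → ∀ a, N * f l a = f l a * N) ∧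
    ∀ Z ∈ lieC A, Commutes A Z → N * Z = Z * N

/-- The Lie algebra `𝔤 ⊗ ℂ` is of type `A_1`. -/
def TypeA1 : Prop :=
  ∃ (n : ℕ) (f : Fin n → M2 →ₗ[ℂ] EndC A), Actions A f ∧ Generates A f ∧
    ∀ i k, i ≠ k → f i 1 * f k 1 ≠ 0 ∨ ∃ N, N ≠ 0 ∧ Links A f i k N

/-- The `E i` are the generators of a Clifford algebra acting on `H_1(A, ℂ)`. -/
def Clifford {N : ℕ} (E : Fin N → EndC A) : Prop :=
  (∀ i, E i * E i = 1) ∧ ∀ i j, i ≠ j → E i * E j = -(E j * E i)

/-- Every colour `σ` is the colour `c j` of exactly `r` of the `j`. -/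
def Uniform {N k : ℕ} (c : Fin N → Fin k) (r : ℕ) : Prop :=
  ∀ σ, (Finset.univ.filter fun j => c j = σ).card = r

/-- The Lie algebra `𝔤 ⊗ ℂ` is a sum of `k` orthogonal Lie algebras `so(r)`, acting by spin
representations, and `r` is at least three and not five. -/
def TypeSpin : Prop :=
  ∃ (N k r : ℕ) (E : Fin N → EndC A) (c : Fin N → Fin k), 3 ≤ r ∧ r ≠ 5 ∧ Clifford A E ∧
    Uniform c r ∧ lieC A = Submodule.span ℂ {Y | ∃ i j, i ≠ j ∧ c i = c j ∧ Y = E i * E j}

/-- The endomorphisms which commute with `[𝔤, 𝔤]` and with `X` commute with the centre. -/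
def Separates (X : EndQ A) : Prop := ∀ T,
  (∀ Y Z, InLie A Y → InLie A Z → Comm A T (Y * Z - Z * Y)) → Comm A T X →
    ∀ Z, Central A Z → Comm A T Z

/-- The relations between the eigenvalues of `X` hold for those of `Y`. -/
def Dominates (X Y : EndQ A) : Prop :=
  ∀ (r : ℕ) (v : Fin r → Fin (2 * g) → ℂ) (x y : Fin r → ℂ),
    (∀ k, v k ≠ 0 ∧ toC A X *ᵥ v k = x k • v k ∧ toC A Y *ᵥ v k = y k • v k) →
      ∑ k, x k = 0 → ∑ k, y k = 0

/-- The central elements that separate dominate the centre. -/
def RigidCentre : Prop :=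
  ∀ X Y, Central A X → Central A Y → Separates A X → Dominates A X Y

/-- **Weights of de Rham-Betti classes, and the torsors of periods of abelian varieties.** -/
theorem result (g : ℕ) (A : AbVar g) :
    -- 1
    (∀ (r : ℕ) (w : ℤ) (a : (Fin r → Fin g ⊕ Fin g) → QBar) (φ : Form A r),
      IsDRB A w a φ → (r : ℤ) ≠ 2 * w → φ = 0) ∧
    (∀ (F : Fin g ⊕ Fin g → Co A) (t : ℂ), TorsorDRB A F t →
      ∀ c : ℂ, c ≠ 0 → TorsorDRB A (fun i => c • F i) (c ^ 2 * t)) ∧
    -- 2
    (∃ (a : (Fin 4 → Fin g ⊕ Fin g) → QBar) (Θ : Form A 4), IsDRB A 2 a Θ ∧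
      (TorsorsCoincide A ↔ IsHodge A Θ ∧ CentreCondition A)) ∧
    -- 3
    ((TypeA1 A ∧ RigidCentre A) ∨ TypeSpin A → TorsorsCoincide A) := by
  have hNA : ∀ X, X ∈ A.NA ↔ InLie A X := fun X => A.mem_NA_iff
  have hcen : ∀ X, X ∈ A.CN ↔ Central A X := fun X =>
    ⟨fun hX => ⟨(hNA X).1 hX.1, fun Y hY => (hX.2 Y ((hNA Y).2 hY)).symm⟩,
      fun hX => ⟨(hNA X).2 hX.1, fun Y hY => (hX.2 Y ((hNA Y).1 hY)).symm⟩⟩
  have hall : (∀ (m : ℕ) (φ : MultilinearMap ℚ (fun _ : Fin m × Fin 2 => A.H1) ℚ),
      IsDeRhamBettiForm QBar A.dR tau m φ →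
        IsHodgeTensor (A.per : A.H1 →+ (Fin g → ℂ)) φ) → TorsorsCoincide A := fun h =>
    ⟨fun F t _ => ⟨fun hp r w a φ h1 _ => hp r w a φ h1,
      fun hp r w a φ h1 => hp r w a φ h1 (A.hodge_all' h h1)⟩,
      fun r w a φ h1 => A.hodge_all' h h1⟩
  have hcc : CentreCondition A ↔ A.CN ≤ A.LA :=
    ⟨fun h X hX => A.mem_LA_iff.2 fun r w a φ h1 => h X ((hcen X).1 hX) r w a φ h1,
      fun h X hX r w a φ h1 => A.mem_LA_iff.1 (h ((hcen X).2 hX)) r w a φ h1⟩
  have hle : A.NA ≤ A.LA ⊔ A.CN → A.CN ≤ A.LA → TorsorsCoincide A := fun h1 h2 =>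
    hall fun m φ hφ => A.hodge_of_le h1 hφ fun X hX => h2 hX m φ hφ
  have hlie : lieC A = Submodule.span ℂ {Y | ∃ X ∈ A.NA, Y = Pool.Agent.Y102.toC X} := by
    unfold lieC
    congr 1
    ext Y
    exact ⟨fun ⟨X, hX, h⟩ => ⟨X, (hNA X).2 hX, h⟩, fun ⟨X, hX, h⟩ => ⟨X, (hNA X).1 hX, h⟩⟩
  refine ⟨fun r w a φ h hne => ?_, fun F t hp c _ r w a φ h => A.homothety h (hp r w a φ h) c,
    ?_, ?_⟩
  · by_contra hφ
    have h1 := A.weight h hφ
    rw [Fintype.card_fin] at h1
    exact hne h1
  · obtain ⟨a, ha⟩ := A.form_compat A.cas_drb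
    refine ⟨a, A.cas.domDomCongr (finProdFinEquiv (m := 2) (n := 2)), ha,
      fun h => ⟨h.2 _ _ a _ ha, fun X hX r w a φ h1 => hX.1 r w a φ h1 (h.2 r w a φ h1)⟩, ?_⟩
    rintro ⟨h1, h2⟩
    exact hle (A.NA_le_of_cas ((A.hodge_reindex_iff _).1 h1)) (hcc.1 h2)
  · rintro (⟨⟨n, f, ⟨e1, e2, e3⟩, ⟨e4, e5⟩, e6⟩, hr⟩ | ⟨N, k, r, E, c, h3, h5, ⟨e1, e2⟩, hc, hl⟩)
    · refine hle ?_ (A.centre_le fun X hX hs Y hY => dom_of_matrix (hr X Y ((hcen X).1 hX)
        ((hcen Y).1 hY) fun T hT hTX Z hZ => hs T (fun Y hY Z hZ =>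
          hT Y Z ((hNA Y).1 hY) ((hNA Z).1 hZ)) hTX Z ((hcen Z).2 hZ)))
      have hc' : ∀ Z, Commutes A Z ↔
          ∀ Y ∈ Submodule.span ℂ {Y | ∃ X ∈ A.NA, Y = Pool.Agent.Y102.toC X}, Z * Y = Y * Z := by
        intro Z
        rw [← hlie]
        rfl
      refine AbVar.NA_le_of_rigid fun X hX Y hY => A.full_LA.of_typeA' (φ := f)
        ⟨e1, e2, e3, fun i x hx => hlie ▸ e4 i x hx, fun X hX => ?_, fun i k hik => ?_⟩ hX hY
      · obtain ⟨x, hx, hc⟩ := e5 X (hlie ▸ hX)
        exact ⟨x, hx, (hc' _).1 hc⟩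
      · rcases e6 i k hik with h | ⟨N, hN, h1, h2, h3, h4⟩
        · exact Or.inl h
        · exact Or.inr ⟨N, hN, h1, h2, h3, fun Z hZ hc => h4 Z (hlie ▸ hZ) ((hc' Z).2 hc)⟩
    · exact hall fun m φ hφ => A.hodge_of_spinMat h3 h5 e1 e2 hc (hlie ▸ hl) hφ

end Pool.Agent.Results.MP_f11a48_ag.AbelianTorsor
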