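import Pool.Agent.Y113.GG.Conv

/-!
# Relations of bounded degree between the periods of almost all members of an arbitrary one-parameter family are
# specialisations of functional relations

Let `Z` be a fundamental matrix, regular at `z = 0`, of a system `f Z' = Z A` over `ℚ(z)` such that the entries of `Z` and of
`W = Z⁻¹` are G-functions, for example the matrix of the Gauss-Manin connection of a family of smooth projective varieties
over `ℚ` with good fibre at `z = 0`, and let `Ω` be any invertible complex matrix (the periods of the fibre at `z = 0`). Then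
`Ω Z(1/x)` is the period matrix of the fibre at `z = 1/x`.

All polynomial relations of degree at most `δ` with coefficients in a `ℚ`-space `V` of dimension at most `D` between the periods
of `k` members of the family at integers `x` are specialisations of functional relations, for all `k`-tuples of separated
integers in `[N, N + N^c]` outside a set of at most `M` integers, and for all but `C T^(k - c)` tuples in `[2, T]^k`. There is
no condition on the size of the coefficients of the relations.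
-/

set_option autoImplicit false

open PowerSeries

namespace Pool.Agent.Results.MP_f11a48_ag.GeneralFamilies

/-- The arithmetic conditions in the definition of a G-function, for a power series with rational coefficients: geometric
growth of the coefficients and of their common denominators. -/
def GCond (g : ℚ⟦X⟧) : Prop := ∃ C : ℝ, (∀ m, |((coeff m g : ℚ) : ℝ)| ≤ C ^ (m + 1)) ∧
  ∀ m, ∃ d : ℕ, 0 < d ∧ (d : ℝ) ≤ C ^ (m + 1) ∧ ∀ j ≤ m, ∃ a : ℤ, (d : ℚ) * coeff j g = a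

/-- The entry `p = (i, j)` of the matrix `Ω Z(1/x)`. -/
noncomputable def period {n : ℕ} (Ω : Matrix (Fin n) (Fin n) ℂ) (Z : Matrix (Fin n) (Fin n) ℚ⟦X⟧) (x : ℝ)
    (p : Fin n × Fin n) : ℂ :=
  ∑ a, Ω p.1 a * ((∑' m : ℕ, ((coeff m (Z a p.2) : ℚ) : ℝ) * (1 / x) ^ m : ℝ) : ℂ)

/-- Every polynomial `P` in `k n²` variables of total degree at most `δ` with coefficients in `V` which vanishes at the periods
of the fibres at `m_1, …, m_k` is the specialisation `F(1/m_1, …, 1/m_k, X)` of a polynomial relation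
`F(1/x_1, …, 1/x_k, Ω Z(1/x_1), …, Ω Z(1/x_k)) = 0` which holds for all real `x_1, …, x_k > x₀`. -/
def Functional {n : ℕ} (Ω : Matrix (Fin n) (Fin n) ℂ) (Z : Matrix (Fin n) (Fin n) ℚ⟦X⟧) (x₀ δ : ℕ) (V : Submodule ℚ ℂ)
    {k : ℕ} (m : Fin k → ℕ) : Prop :=
  ∀ P : MvPolynomial (Fin k × (Fin n × Fin n)) ℂ, P.totalDegree ≤ δ → (∀ s, P.coeff s ∈ V) →
    MvPolynomial.aeval (fun q : Fin k × (Fin n × Fin n) => period Ω Z (m q.1) q.2) P = 0 →
    ∃ F : MvPolynomial (Fin k ⊕ (Fin k × (Fin n × Fin n))) ℂ,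
      (∀ x : Fin k → ℝ, (∀ l, (x₀ : ℝ) < x l) → MvPolynomial.aeval
        (Sum.elim (fun l => ((1 / x l : ℝ) : ℂ)) (fun q : Fin k × (Fin n × Fin n) => period Ω Z (x q.1) q.2)) F = 0) ∧
      MvPolynomial.aeval (Sum.elim (fun l => MvPolynomial.C ((1 / (m l : ℝ) : ℝ) : ℂ)) MvPolynomial.X) F = P

open Classical in
/-- The theorem. The numbers `x₀` and `G` depend only on the family, `M`, `c`, `C` only on the family and on `k, δ, D`. -/
theorem result (n : ℕ) (f : Polynomial ℚ) (A : Matrix (Fin n) (Fin n) (Polynomial ℚ)) (Z W : Matrix (Fin n) (Fin n) ℚ⟦X⟧)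
    (hf : f.coeff 0 ≠ 0)
    (hode : ∀ i j, (f : ℚ⟦X⟧) * PowerSeries.derivative ℚ (Z i j) = ∑ k, Z i k * (A k j : ℚ⟦X⟧))
    (hW : W * Z = 1) (hGZ : ∀ i j, GCond (Z i j)) (hGW : ∀ i j, GCond (W i j)) :
    ∃ x₀ G : ℕ, ∀ k δ D : ℕ,
      (∃ M : ℕ, ∃ c : ℝ, 0 < c ∧ ∀ Ω : Matrix (Fin n) (Fin n) ℂ, IsUnit Ω →
        ∀ V : Submodule ℚ ℂ, Module.Finite ℚ V → Module.finrank ℚ V ≤ D → ∀ N : ℕ, 1 ≤ N →
        ∃ S : Finset ℕ, S.card ≤ M ∧ ∀ m : Fin k → ℕ, (∀ i j, i ≠ j → (G : ℤ) ≤ |(m i : ℤ) - m j|) →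
          (∀ i, N ≤ m i ∧ (m i : ℝ) ≤ N + (N : ℝ) ^ c ∧ m i ∉ S) → Functional Ω Z x₀ δ V m) ∧
      ∃ c : ℝ, 0 < c ∧ ∃ C : ℝ, ∀ Ω : Matrix (Fin n) (Fin n) ℂ, IsUnit Ω →
        ∀ V : Submodule ℚ ℂ, Module.Finite ℚ V → Module.finrank ℚ V ≤ D → ∀ T : ℕ, 1 ≤ T →
        (((Fintype.piFinset fun _ : Fin k => Finset.Icc 2 T).filter fun m => ¬ Functional Ω Z x₀ δ V m).card : ℝ) ≤
          C * (T : ℝ) ^ ((k : ℝ) - c) := by
  have hG : ∀ g : ℚ⟦X⟧, GCond g → Y113.SDc g := by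
    rintro g ⟨C, h1, h2⟩
    have hC : 1 ≤ C := by
      obtain ⟨d, hd0, hd, -⟩ := h2 0
      have : (1 : ℝ) ≤ d := by exact_mod_cast hd0
      simpa using this.trans hd
    obtain ⟨a, ha⟩ := Y678.HG.exists_two_pow C
    refine ⟨a, fun m => (h1 m).trans (pow_le_pow_left₀ (by linarith) ha _), fun m => ?_⟩
    obtain ⟨d, hd0, hd, hd'⟩ := h2 m
    exact ⟨d, hd0, hd.trans (pow_le_pow_left₀ (by linarith) ha _), hd'⟩
  have hdat : Y113.GG.Dat f (fun i j => A i j) (fun i j => Z i j) (fun i j => W i j) := by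
    refine ⟨hf, hode, fun i j => ?_, fun i j => hG _ (hGZ i j), fun i j => hG _ (hGW i j)⟩
    have h1 : (W * Z) i j = (1 : Matrix (Fin n) (Fin n) ℚ⟦X⟧) i j := by rw [hW]
    rw [Matrix.mul_apply] at h1
    rw [h1, Matrix.one_apply]
  obtain ⟨x₀, G, hmain⟩ := Y113.GG.main hdat
  refine ⟨x₀, G, fun k δ D => ?_⟩
  obtain ⟨⟨M, E, hwin⟩, c, hc, C, hcount⟩ := hmain δ k D
  refine ⟨?_, c, hc, C, ?_⟩
  · obtain ⟨c', hc', hconv⟩ := Y113.GG.conv k G E M
    refine ⟨M + 3, c', hc', ?_⟩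
    rintro _ ⟨u, rfl⟩ V hV hVD N hN
    exact hconv _ (hwin (u : Matrix (Fin n) (Fin n) ℂ) (u⁻¹ : _) u.mul_inv u.inv_mul V hV hVD) N hN
  · rintro _ ⟨u, rfl⟩ V hV hVD T hT
    exact hcount (u : Matrix (Fin n) (Fin n) ℂ) (u⁻¹ : _) u.mul_inv u.inv_mul V hV hVD T hT

end Pool.Agent.Results.MP_f11a48_ag.GeneralFamilies
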