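import Pool.Agent.Y123.ST.Out
import Pool.Agent.Y118.HG.Kfin

/-!
# The smallest subtorsor containing the period matrix is the torsor of motivated periods, for almost all products of
# hyperelliptic curves; relations of bounded degree suffice

Let `K` be a field of algebraic numbers and `M = M_1 ⊕ … ⊕ M_N` a sum of polarised de Rham-Betti objects of odd weight
`w` and the same rank `n`: for `M_j`, the polarisation is given by matrices `Q_j` over `K` (on the de Rham side) and
`polB n` (on the Betti side; every nondegenerate alternating form over `ℚ` has this matrix in some basis), and the period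
matrix `c_j` satisfies `c_j Q_j c_jᵀ = (2πi)^w polB`. The group `Aut` of these data consists of `N`-tuples of symplectic
similitudes with the same multiplier, its torsor is `polTorsor Q`. For a motive `M` the polarisations are motivated
classes, so that `Z_M ⊆ Ω_M ⊆ Ω^dRB_M ⊆ Ω^And_M ⊆ polTorsor Q`.

1. For every even `n > 0` there is a number `d` such that for all `N` and `K` and all such `M`: if all polynomial relations
of degree at most `d` over `K` between the periods are consequences of the polarisations, then `Ω_M = polTorsor Q`. So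
in this case `Ω_M = Ω^dRB_M = Ω^And_M`, and relations of arbitrarily high degree which come from subtorsors (for example
from tensors) do not exist.

2. Let `f_1, …, f_N ∈ ℚ[X]` be monic of degree `n = 2 g` with `n` distinct real roots which are not zero. For every `D`
there are `c > 0` and `M` such that for all `T` and all but `M T^(N - c)` of the `T^N` tuples `(t_1, …, t_N)` of natural
numbers `t_j ≤ T` the motive `M = h^1(C_1) ⊕ … ⊕ h^1(C_N)` of the curves `C_j : y² = f_j(x) (x - 1 / t_j)` of genus `g`
has the property that `Ω_M = polTorsor`, over all fields `K` of degree at most `D`; hence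
`Ω_M = Ω^dRB_M = Ω^And_M = Ω^mot_M`.

The proof of 1 (`Pool/Agent/Y123/ST`): the Lie algebra of a subtorsor is rational over `K`, so a relation of degree two
between `c` and `c⁻¹` says that it is normalised by `c`; this extends to the whole torsor. So the Lie algebra is the sum
of some of the symplectic algebras and a subspace of the scalars. For every derivation of `ℂ` over `K` the logarithmic
derivative of the period matrix is in the Lie algebra. If a block is missing, the points of the subtorsor are algebraic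
in this block up to scalars, so that the subtorsor gives a finite group, and the theorem of Jordan on finite linear groups
gives a relation of bounded degree. The proof of 2 uses the theorem of helper118 (`Pool/Agent/Y118/HG`): relations of
bounded degree between the periods are trivial outside of a sparse set.
-/

set_option autoImplicit false

open Polynomial Matrix

namespace Pool.Agent.Results.MP_f11a48_ag.HyperellipticSmallestSubtorsor

/-- `T` is (the set of complex points of) a `K`-subtorsor of `GL_B = Iso (M_dR, M_B)`: it is closed under `x y⁻¹ z`, and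
it is defined in `GL_B` by polynomials with coefficients in `K`. -/
def IsSubtorsor (K : Subfield ℂ) {B : Type} [Fintype B] [DecidableEq B] (T : Set (Matrix B B ℂ)) : Prop :=
  (∀ x ∈ T, ∀ y ∈ T, ∀ z ∈ T, x * y⁻¹ * z ∈ T) ∧ ∃ I : Set (MvPolynomial (B × B) K), ∀ x : Matrix B B ℂ, x ∈ T ↔
    IsUnit x ∧ ∀ p ∈ I, MvPolynomial.eval (fun b => x b.1 b.2) (MvPolynomial.map (algebraMap K ℂ) p) = 0

/-- `Ω` is the smallest `K`-subtorsor which contains the period matrix `c` -/
def IsOmega (K : Subfield ℂ) {B : Type} [Fintype B] [DecidableEq B] (c : Matrix B B ℂ) (Ω : Set (Matrix B B ℂ)) : Prop :=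
  IsSubtorsor K Ω ∧ c ∈ Ω ∧ ∀ T : Set (Matrix B B ℂ), IsSubtorsor K T → c ∈ T → Ω ⊆ T

/-- the alternating form with entries `2 (-1)^r` at `(r, s)`, `|r - s| = 1` -/
def polB (n : ℕ) : Matrix (Fin n) (Fin n) ℚ :=
  Matrix.of fun r s => if (r : ℕ) = s + 1 ∨ (s : ℕ) = r + 1 then 2 * (-1) ^ (r : ℕ) else 0

/-- `(X_1, …, X_N)` respects the polarisations, with multiplier `μ` -/
def Respects {n N : ℕ} (Q : Fin N → Matrix (Fin n) (Fin n) ℂ) (X : Fin N → Matrix (Fin n) (Fin n) ℂ) (μ : ℂ) : Prop :=
  ∀ j, X j * Q j * (X j)ᵀ = μ • (polB n).map (algebraMap ℚ ℂ)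

/-- the torsor of the block diagonal matrices which respect the polarisations, with the same multiplier -/
def polTorsor {n N : ℕ} (Q : Fin N → Matrix (Fin n) (Fin n) ℂ) : Set (Matrix (Fin n × Fin N) (Fin n × Fin N) ℂ) :=
  {x | ∃ (X : Fin N → Matrix (Fin n) (Fin n) ℂ) (μ : ℂ), μ ≠ 0 ∧ x = Matrix.blockDiagonal X ∧ Respects Q X μ}

/-- the value of a polynomial over `K` at the entries of the matrices `X_j` -/
noncomputable def value {n N : ℕ} {K : Subfield ℂ} (X : Fin N → Matrix (Fin n) (Fin n) ℂ)
    (P : MvPolynomial (Fin N × Fin n × Fin n) K) : ℂ :=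
  MvPolynomial.eval (fun s => X s.1 s.2.1 s.2.2) (MvPolynomial.map (algebraMap K ℂ) P)

/-- all relations of degree at most `d` over `K` between the entries of the matrices `c_j` are consequences of the
polarisations -/
def NoRelation {n N : ℕ} (K : Subfield ℂ) (Q c : Fin N → Matrix (Fin n) (Fin n) ℂ) (d : ℕ) : Prop :=
  ∀ P : MvPolynomial (Fin N × Fin n × Fin n) K, P.totalDegree ≤ d → value c P = 0 →
    ∀ (X : Fin N → Matrix (Fin n) (Fin n) ℂ) (μ : ℂ), μ ≠ 0 → Respects Q X μ → value X P = 0

/-- the branch points: `t` inserted at place `m` in the sequence of the `a i` -/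
noncomputable def branch {n : ℕ} (a : Fin n → ℝ) (m : Fin (n + 1)) (t : ℝ) : Fin (n + 1) → ℝ :=
  Fin.insertNth (α := fun _ => ℝ) m t a

/-- the period `∮ x^j dx / y`, `y² = ∏ (x - e i)`, over the loop around the segment `[e l, e (l + 1)]`, that is twice
the integral over the segment (principal branch of the square root) -/
noncomputable def period {n : ℕ} (e : Fin (n + 1) → ℝ) (l j : Fin n) : ℂ :=
  2 * ∫ x in (e l.castSucc)..(e l.succ), (x : ℂ) ^ (j : ℕ) / (((∏ i, (x - e i) : ℝ) : ℂ) ^ (1 / 2 : ℂ))

/-- the polarisation in terms of the forms `x^j dx / y`, `y² = F(x) = ∑ c_k x^k`: entries `(i - j)/2 * c_(i+j+2)` -/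
noncomputable def polDR (n : ℕ) (F : ℚ[X]) : Matrix (Fin n) (Fin n) ℚ :=
  Matrix.of fun i j => (((i : ℕ) : ℚ) - ((j : ℕ) : ℚ)) / 2 * F.coeff ((i : ℕ) + (j : ℕ) + 2)

theorem result :
    -- 1: for the rank `n`, relations of bounded degree suffice
    (∀ n : ℕ, Even n → 0 < n → ∃ d : ℕ, ∀ (N : ℕ) (K : Subfield ℂ) (Q c : Fin N → Matrix (Fin n) (Fin n) ℂ) (l : ℂ),
      0 < N → (∀ x ∈ K, IsAlgebraic ℚ x) → (∀ j a b, Q j a b ∈ K) → Transcendental ℚ l → Respects Q c l →
      NoRelation K Q c d → IsOmega K (Matrix.blockDiagonal c) (polTorsor Q)) ∧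
    -- 2: almost all products of hyperelliptic curves
    (∀ (n N : ℕ), Even n → 0 < n → 0 < N → ∀ (a : Fin N → Fin n → ℝ) (f : Fin N → ℚ[X]) (m : Fin N → Fin (n + 1)),
      (∀ j, (f j).map (algebraMap ℚ ℝ) = ∏ i, (X - C (a j i))) → (∀ j, StrictMono (branch (a j) (m j) 0)) →
      ∀ D : ℕ, ∃ c M : ℝ, 0 < c ∧ ∀ T : ℕ, 1 ≤ T → ∃ S : Finset (Fin N → ℕ), (S.card : ℝ) ≤ M * (T : ℝ) ^ ((N : ℝ) - c) ∧
        ∀ t : Fin N → ℕ, (∀ j, 1 ≤ t j ∧ t j ≤ T) → t ∉ S →
          (∀ j, StrictMono (branch (a j) (m j) (1 / (t j : ℝ)))) ∧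
          ∀ K : Subfield ℂ, FiniteDimensional ℚ K → Module.finrank ℚ K ≤ D →
            IsOmega K (Matrix.blockDiagonal fun j => Matrix.of (period (branch (a j) (m j) (1 / (t j : ℝ)))))
              (polTorsor fun j => (polDR n (f j * (X - C (1 / (t j : ℚ))))).map (algebraMap ℚ ℂ))) := by
  refine ⟨fun n hn hn0 => ?_, fun n N hn hn0 hN a f m hf h0 D => ?_⟩
  · obtain ⟨d, hd⟩ := Pool.Agent.Y123.ST.crit_out n hn hn0
    exact ⟨d, fun N K Q c l hN hK hQ hl hc hr => hd N K Q c l hN hK hQ hl hc hr⟩
  · obtain ⟨d, hd⟩ := Pool.Agent.Y123.ST.crit_out n hn hn0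
    obtain ⟨c, M, hc, h1⟩ := Pool.Agent.Y118.HG.kfin hn a f hf m h0 D d
    refine ⟨c, M, hc, fun T hT => ?_⟩
    obtain ⟨S, hS, h2⟩ := h1 T hT
    refine ⟨S, hS, fun t ht htS => ?_⟩
    obtain ⟨h3, h4, h5⟩ := h2 t ht htS
    refine ⟨h3, fun K hK hKD => ?_⟩
    have : NumberField K := { to_charZero := inferInstance, to_finiteDimensional := hK }
    refine hd N K _ _ (2 * Real.pi * Complex.I) hN ?_ ?_ Pool.Agent.Y123.ST.transc_two_pi_I h4.2 ?_
    · intro x hx
      have h6 : IsAlgebraic ℚ (⟨x, hx⟩ : K) := Algebra.IsAlgebraic.isAlgebraic _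
      exact h6.algebraMap (A := ℂ)
    · intro j a' b'
      exact SubfieldClass.ratCast_mem K _
    · intro P hP h6 X' μ hμ hX
      have h7 := h5 K (algebraMap K ℂ) (MvPolynomial.rename some P) hKD
        ((MvPolynomial.totalDegree_rename_le _ _).trans hP) ?_ (X', μ) ⟨hμ, hX⟩
      · rw [MvPolynomial.map_rename, MvPolynomial.eval_rename] at h7
        exact h7
      · rw [MvPolynomial.map_rename, MvPolynomial.eval_rename]
        exact h6

end Pool.Agent.Results.MP_f11a48_ag.HyperellipticSmallestSubtorsor
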